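import Pool.Agent.H90.SPW.Targets

set_option autoImplicit false

open Finset
open scoped BigOperators Classical

namespace Pool.Agent.H69.SPW

open Pool.Agent.H90.SPW

section

variable {X E Y : Type} [Fintype X] [Fintype E] [Fintype Y]

/-- the term of one time step -/
noncomputable def amT (c : Ch X E Y) (Lam : ℝ) (x : X) (t : ℕ) : ℝ :=
  ∑ y, ∑ e, (if c.Amp Lam t x (c.tgt e) y then c.P t x (c.src e) * c.use y e else 0)

/-- the entropy decrease at one time step -/
noncomputable def dT (c : Ch X E Y) (x : X) (t : ℕ) : ℝ :=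
  ∑ e, c.wt e * c.P t x (c.src e) *
    (Real.log (c.P t x (c.src e)) - Real.log (c.P (t + 1) x (c.tgt e)))

theorem sum_if_tgt (c : Ch X E Y) (f : X → E → ℝ) :
    ∑ z, ∑ e, (if c.tgt e = z then f z e else 0) = ∑ e, f (c.tgt e) e := by
  rw [Finset.sum_comm]
  refine Finset.sum_congr rfl fun e _ => ?_
  rw [Finset.sum_ite_eq]
  simp

theorem sum_if_src (c : Ch X E Y) (f : X → E → ℝ) :
    ∑ z, ∑ e, (if c.src e = z then f z e else 0) = ∑ e, f (c.src e) e := by
  rw [Finset.sum_comm]
  refine Finset.sum_congr rfl fun e _ => ?_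
  rw [Finset.sum_ite_eq]
  simp

theorem step_le (hLSI : T_LSI) (c : Ch X E Y) (Lam : ℝ) (hLam : Real.exp 1 ≤ Lam) (x : X)
    (t : ℕ) : (Real.log Lam - 1) * amT c Lam x t ≤ dT c x t := by
  have h1 : ∀ z : X, (Real.log Lam - 1) * ∑ y, (if c.Amp Lam t x z y then c.inA t x z y else 0) ≤
      ∑ e, (if c.tgt e = z then c.wt e * c.P t x (c.src e) *
        (Real.log (c.P t x (c.src e)) - Real.log (c.P (t + 1) x z)) else 0) := by
    intro z
    have h := hLSI E Y c.lt (fun e => if c.tgt e = z then c.wt e else 0)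
      (fun e => c.P t x (c.src e)) Lam (fun e => by
        split_ifs
        · exact c.wt_nonneg e
        · exact le_rfl) (fun e => c.P_nonneg t x _) (c.in_le z) hLam
    have hP : ∑ e, (if c.tgt e = z then c.wt e else 0) * c.P t x (c.src e) = c.P (t + 1) x z := by
      rw [c.P_succ]
      refine Finset.sum_congr rfl fun e _ => ?_
      split_ifs
      · ring
      · ring
    have hW : ∀ y, ∑ e, (if c.lt e = some y then (if c.tgt e = z then c.wt e else 0) else 0) =
        c.inW z y := by
      intro y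
      unfold Ch.inW Ch.use
      refine Finset.sum_congr rfl fun e _ => ?_
      split_ifs <;> rfl
    have hA : ∀ y, ∑ e, (if c.lt e = some y then (if c.tgt e = z then c.wt e else 0) *
        c.P t x (c.src e) else 0) = c.inA t x z y := by
      intro y
      unfold Ch.inA Ch.use
      refine Finset.sum_congr rfl fun e _ => ?_
      split_ifs <;> ring
    simp only [hP, hW, hA] at h
    refine h.trans (le_of_eq ?_)
    refine Finset.sum_congr rfl fun e _ => ?_
    split_ifs
    · rfl
    · ring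
  have h2 := Finset.sum_le_sum (s := univ) fun z _ => h1 z
  rw [sum_if_tgt c (fun z e => c.wt e * c.P t x (c.src e) *
        (Real.log (c.P t x (c.src e)) - Real.log (c.P (t + 1) x z))), ← Finset.mul_sum] at h2
  have h3 : ∑ z, ∑ y, (if c.Amp Lam t x z y then c.inA t x z y else 0) = amT c Lam x t := by
    unfold amT
    rw [Finset.sum_comm]
    refine Finset.sum_congr rfl fun y _ => ?_
    rw [← sum_if_tgt c (fun z e => if c.Amp Lam t x z y then
      c.P t x (c.src e) * c.use y e else 0)]
    refine Finset.sum_congr rfl fun z _ => ?_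
    by_cases h : c.Amp Lam t x z y
    · simp only [h, if_true]
      rfl
    · simp [h]
  rw [h3] at h2
  exact h2

/-- the total weight of the edges out of a state -/
noncomputable def oo (c : Ch X E Y) (z : X) : ℝ := ∑ e, if c.src e = z then c.wt e else 0

theorem oo_nonneg (c : Ch X E Y) (z : X) : 0 ≤ oo c z := by
  refine Finset.sum_nonneg fun e _ => ?_
  split_ifs
  · exact c.wt_nonneg e
  · exact le_rfl

theorem oo_le (c : Ch X E Y) (z : X) : oo c z ≤ 1 := c.out_le z

theorem dT_eq (c : Ch X E Y) (x : X) (t : ℕ) :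
    dT c x t = ∑ z, oo c z * (c.P t x z * Real.log (c.P t x z)) -
      ∑ z, c.P (t + 1) x z * Real.log (c.P (t + 1) x z) := by
  unfold dT
  have h1 : ∑ z, oo c z * (c.P t x z * Real.log (c.P t x z)) =
      ∑ e, c.wt e * c.P t x (c.src e) * Real.log (c.P t x (c.src e)) := by
    rw [← sum_if_src c (fun z e => c.wt e * c.P t x z * Real.log (c.P t x z))]
    refine Finset.sum_congr rfl fun z _ => ?_
    unfold oo
    rw [Finset.sum_mul]
    refine Finset.sum_congr rfl fun e _ => ?_
    split_ifs <;> ring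
  have h2 : ∑ z, c.P (t + 1) x z * Real.log (c.P (t + 1) x z) =
      ∑ e, c.wt e * c.P t x (c.src e) * Real.log (c.P (t + 1) x (c.tgt e)) := by
    rw [← sum_if_tgt c (fun z e => c.wt e * c.P t x (c.src e) * Real.log (c.P (t + 1) x z))]
    refine Finset.sum_congr rfl fun z _ => ?_
    conv_lhs => rw [c.P_succ t x z, Finset.sum_mul]
    refine Finset.sum_congr rfl fun e _ => ?_
    by_cases h : c.tgt e = z
    · rw [if_pos h, if_pos h, c.P_succ t x z]
      ring
    · rw [if_neg h, if_neg h, zero_mul]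
  rw [h1, h2, ← Finset.sum_sub_distrib]
  refine Finset.sum_congr rfl fun e _ => ?_
  ring

theorem mass_succ (c : Ch X E Y) (x : X) (t : ℕ) :
    ∑ z, c.P (t + 1) x z = ∑ z, oo c z * c.P t x z := by
  have h1 : ∑ z, oo c z * c.P t x z = ∑ e, c.wt e * c.P t x (c.src e) := by
    rw [← sum_if_src c (fun z e => c.wt e * c.P t x z)]
    refine Finset.sum_congr rfl fun z _ => ?_
    unfold oo
    rw [Finset.sum_mul]
    refine Finset.sum_congr rfl fun e _ => ?_
    split_ifs <;> ring
  rw [h1, ← sum_if_tgt c (fun z e => c.wt e * c.P t x (c.src e))]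
  refine Finset.sum_congr rfl fun z _ => ?_
  rw [c.P_succ t x z]
  refine Finset.sum_congr rfl fun e _ => ?_
  split_ifs <;> ring

/-- one term -/
theorem term_le (m u N : ℝ) (hm : 0 ≤ m) (hmu : m ≤ u) (hN : 0 < N) :
    m * (-Real.log u) ≤ m * Real.log N + N⁻¹ - m := by
  rcases hm.eq_or_lt with h | h
  · rw [← h]
    have : 0 < N⁻¹ := inv_pos.2 hN
    simp only [zero_mul, zero_add, sub_zero]
    exact this.le
  · have hu : 0 < u := lt_of_lt_of_le h hmu
    have h1 := Real.log_le_sub_one_of_pos (x := (u * N)⁻¹) (by positivity)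
    rw [Real.log_inv, Real.log_mul hu.ne' hN.ne'] at h1
    have h2 : m * (-(Real.log u + Real.log N)) ≤ m * ((u * N)⁻¹ - 1) :=
      mul_le_mul_of_nonneg_left h1 hm
    have h3 : m * (u * N)⁻¹ ≤ N⁻¹ := by
      rw [mul_inv, ← mul_assoc]
      have : m * u⁻¹ ≤ 1 := by
        rw [← div_eq_mul_inv]
        exact (div_le_one hu).2 hmu
      have hN' : 0 < N⁻¹ := inv_pos.2 hN
      nlinarith
    linarith

theorem total_eq (c : Ch X E Y) (x : X) (h : ℕ) :
    ∑ t ∈ range h, dT c x t = ∑ z, c.P h x z * (-Real.log (c.P h x z)) +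
      ∑ t ∈ range h, ∑ z, (1 - oo c z) * c.P t x z * (-Real.log (c.P t x z)) := by
  induction h with
  | zero =>
    simp only [Finset.range_zero, Finset.sum_empty, add_zero]
    symm
    refine Finset.sum_eq_zero fun z _ => ?_
    rw [c.P_zero]
    split_ifs <;> simp
  | succ h ih =>
    rw [Finset.sum_range_succ, ih, Finset.sum_range_succ, dT_eq]
    have e1 : ∑ z, (1 - oo c z) * c.P h x z * (-Real.log (c.P h x z)) =
        ∑ z, c.P h x z * (-Real.log (c.P h x z)) +
          ∑ z, oo c z * (c.P h x z * Real.log (c.P h x z)) := by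
      rw [← Finset.sum_add_distrib]
      refine Finset.sum_congr rfl fun z _ => ?_
      ring
    have e2 : ∑ z, c.P (h + 1) x z * (-Real.log (c.P (h + 1) x z)) =
        -∑ z, c.P (h + 1) x z * Real.log (c.P (h + 1) x z) := by
      rw [← Finset.sum_neg_distrib]
      refine Finset.sum_congr rfl fun z _ => ?_
      ring
    rw [e1, e2]
    ring

theorem mass_eq (c : Ch X E Y) (x : X) (h : ℕ) :
    ∑ z, c.P h x z + ∑ t ∈ range h, ∑ z, (1 - oo c z) * c.P t x z = 1 := by
  induction h with
  | zero => simp [c.P_zero]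
  | succ h ih =>
    rw [Finset.sum_range_succ, mass_succ]
    have e1 : ∑ z, (1 - oo c z) * c.P h x z = ∑ z, c.P h x z - ∑ z, oo c z * c.P h x z := by
      rw [← Finset.sum_sub_distrib]
      refine Finset.sum_congr rfl fun z _ => ?_
      ring
    rw [e1]
    linarith

end

theorem pf_EM (hLSI : T_LSI) : T_EM := by
  intro X E Y _ _ _ c Lam hLam h x
  have h1 : (Real.log Lam - 1) * ∑ y, ∑ t ∈ range h, ∑ e, (if c.Amp Lam t x (c.tgt e) y then
      c.P t x (c.src e) * c.use y e else 0) ≤ ∑ t ∈ range h, dT c x t := by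
    rw [Finset.sum_comm, Finset.mul_sum]
    exact Finset.sum_le_sum fun t _ => step_le hLSI c Lam hLam x t
  refine h1.trans ?_
  have hcard : 1 ≤ (Fintype.card X : ℝ) := by
    exact_mod_cast Fintype.card_pos_iff.2 ⟨x⟩
  set N : ℝ := (h + 1) * Fintype.card X with hN
  have hN1 : 1 ≤ N := by
    have : (0 : ℝ) ≤ h := Nat.cast_nonneg h
    nlinarith
  have hN0 : 0 < N := by linarith
  have hlogN : 0 ≤ Real.log N := Real.log_nonneg hN1
  rw [total_eq]
  have b1 : ∑ z, c.P h x z * (-Real.log (c.P h x z)) ≤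
      ∑ z, (c.P h x z * Real.log N + N⁻¹ - c.P h x z) :=
    Finset.sum_le_sum fun z _ => term_le _ _ N (c.P_nonneg h x z) le_rfl hN0
  have b2 : ∑ t ∈ range h, ∑ z, (1 - oo c z) * c.P t x z * (-Real.log (c.P t x z)) ≤
      ∑ t ∈ range h, ∑ z, ((1 - oo c z) * c.P t x z * Real.log N + N⁻¹ -
        (1 - oo c z) * c.P t x z) := by
    refine Finset.sum_le_sum fun t _ => Finset.sum_le_sum fun z _ => ?_
    have ho1 := oo_le c z
    have ho0 := oo_nonneg c z
    have hP0 := c.P_nonneg t x z
    exact term_le _ _ N (mul_nonneg (by linarith) hP0) (by nlinarith) hN0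
  have hm := mass_eq c x h
  have e1 : ∑ z, (c.P h x z * Real.log N + N⁻¹ - c.P h x z) =
      (∑ z, c.P h x z) * Real.log N + Fintype.card X * N⁻¹ - ∑ z, c.P h x z := by
    rw [Finset.sum_sub_distrib, Finset.sum_add_distrib, Finset.sum_mul]
    simp
  have e2 : ∑ t ∈ range h, ∑ z, ((1 - oo c z) * c.P t x z * Real.log N + N⁻¹ -
        (1 - oo c z) * c.P t x z) =
      (∑ t ∈ range h, ∑ z, (1 - oo c z) * c.P t x z) * Real.log N + h * (Fintype.card X * N⁻¹) -
        ∑ t ∈ range h, ∑ z, (1 - oo c z) * c.P t x z := by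
    simp only [Finset.sum_sub_distrib, Finset.sum_add_distrib, Finset.sum_mul]
    simp
  have e3 : Fintype.card X * N⁻¹ + h * (Fintype.card X * N⁻¹) = 1 := by
    have : Fintype.card X * N⁻¹ + h * (Fintype.card X * N⁻¹) = N * N⁻¹ := by
      rw [hN]
      ring
    rw [this, mul_inv_cancel₀ hN0.ne']
  have b3 := add_le_add b1 b2
  rw [e1, e2] at b3
  have e4 : ((∑ z, c.P h x z) + ∑ t ∈ range h, ∑ z, (1 - oo c z) * c.P t x z) * Real.log N =
      Real.log N := by rw [hm, one_mul]
  rw [add_mul] at e4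
  linarith

end Pool.Agent.H69.SPW
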