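import Pool.Agent.H90.SPW.Targets

set_option autoImplicit false

open Finset
open scoped BigOperators Classical

namespace Pool.Agent.H69.SPW

open Pool.Agent.H90.SPW

/-- pointwise lower bound -/
theorem lsi_pt (w u S th : ℝ) (hw : 0 ≤ w) (hu : 0 ≤ u) (hS : 0 < S) (hth : 0 < th) :
    w * u * (Real.log th + 1) - th * S * w ≤ w * u * (Real.log u - Real.log S) := by
  rcases hu.eq_or_lt with h0 | h0
  · rw [← h0]
    have : 0 ≤ th * S * w := by positivity
    simp only [mul_zero, zero_mul]
    linarith
  · have h1 := Real.one_sub_inv_le_log_of_pos (x := u / (S * th)) (by positivity)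
    rw [Real.log_div h0.ne' (by positivity), Real.log_mul hS.ne' hth.ne', inv_div] at h1
    have h2 : w * u * (1 - S * th / u) ≤ w * u * (Real.log u - (Real.log S + Real.log th)) :=
      mul_le_mul_of_nonneg_left h1 (by positivity)
    have h3 : w * u * (1 - S * th / u) = w * u - th * S * w := by
      field_simp
    linarith

theorem pf_LSI : T_LSI := by
  intro E' Y _ _ lt w u Lam hw hu hsum hLam
  set S := ∑ e, w e * u e with hSdef
  have hSnn : 0 ≤ S := Finset.sum_nonneg fun e _ => mul_nonneg (hw e) (hu e)
  have hLam0 : 0 < Lam := lt_of_lt_of_le (Real.exp_pos 1) hLam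
  have hLam1 : 1 ≤ Lam := by
    have := Real.add_one_le_exp (1 : ℝ)
    linarith
  rcases hSnn.eq_or_lt with h0 | h0
  · have hz : ∀ e, w e * u e = 0 := by
      intro e
      have := (Finset.sum_eq_zero_iff_of_nonneg (s := univ) (f := fun e => w e * u e)
        (fun e _ => mul_nonneg (hw e) (hu e))).1 h0.symm
      exact this e (mem_univ e)
    simp [hz]
  · -- the amplified letters
    set A : Y → Prop := fun y => Lam * (∑ e, if lt e = some y then w e else 0) * S ≤
      ∑ e, (if lt e = some y then w e * u e else 0) with hA
    set a : E' → Prop := fun e => ∃ y, lt e = some y ∧ A y with ha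
    have hswap : ∀ f : E' → ℝ, ∑ y, (if A y then ∑ e, (if lt e = some y then f e else 0) else 0) =
        ∑ e, if a e then f e else 0 := by
      intro f
      have h1 : ∀ y, (if A y then ∑ e, (if lt e = some y then f e else 0) else 0) =
          ∑ e, if lt e = some y ∧ A y then f e else 0 := by
        intro y
        by_cases h : A y
        · simp [h]
        · simp [h]
      simp_rw [h1]
      rw [Finset.sum_comm]
      refine Finset.sum_congr rfl fun e _ => ?_
      by_cases h : a e
      · obtain ⟨y, hy, hAy⟩ := h
        rw [Finset.sum_eq_single y]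
        · rw [if_pos ⟨hy, hAy⟩, if_pos ⟨y, hy, hAy⟩]
        · intro z _ hz
          rw [if_neg]
          rintro ⟨h1, -⟩
          rw [hy] at h1
          exact hz (Option.some.inj h1).symm
        · intro h
          exact absurd (mem_univ y) h
      · rw [if_neg h]
        refine Finset.sum_eq_zero fun y _ => ?_
        rw [if_neg]
        rintro ⟨h1, h2⟩
        exact h ⟨y, h1, h2⟩
    have hamp : Lam * S * ∑ e, (if a e then w e else 0) ≤ ∑ e, (if a e then w e * u e else 0) := by
      rw [← hswap w, ← hswap (fun e => w e * u e), Finset.mul_sum]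
      refine Finset.sum_le_sum fun y _ => ?_
      by_cases h : A y
      · rw [if_pos h, if_pos h]
        have h' : Lam * (∑ e, if lt e = some y then w e else 0) * S ≤
          ∑ e, (if lt e = some y then w e * u e else 0) := h
        linarith
      · rw [if_neg h, if_neg h, mul_zero]
    have hpt : ∀ e, (w e * u e - S * w e) + (Real.log Lam * (if a e then w e * u e else 0) -
        (Lam - 1) * S * (if a e then w e else 0)) ≤ w e * u e * (Real.log (u e) - Real.log S) := by
      intro e
      by_cases h : a e
      · rw [if_pos h, if_pos h]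
        have := lsi_pt (w e) (u e) S Lam (hw e) (hu e) h0 hLam0
        linarith
      · rw [if_neg h, if_neg h]
        have := lsi_pt (w e) (u e) S 1 (hw e) (hu e) h0 one_pos
        rw [Real.log_one] at this
        linarith
    have htot := Finset.sum_le_sum (s := univ) fun e _ => hpt e
    rw [Finset.sum_add_distrib, Finset.sum_sub_distrib, Finset.sum_sub_distrib, ← Finset.mul_sum,
      ← Finset.mul_sum, ← Finset.mul_sum, ← hSdef] at htot
    have hL := hswap (fun e => w e * u e)
    have goal1 : (Real.log Lam - 1) * ∑ e, (if a e then w e * u e else 0) ≤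
        ∑ e, w e * u e * (Real.log (u e) - Real.log S) := by
      have hwa : 0 ≤ ∑ e, (if a e then w e else 0) := by
        refine Finset.sum_nonneg fun e _ => ?_
        split_ifs
        · exact hw e
        · exact le_rfl
      have h5 : S * ∑ e, w e ≤ S := by nlinarith
      have h6 : 0 ≤ S * ∑ e, (if a e then w e else 0) := mul_nonneg h0.le hwa
      nlinarith
    rw [← hL] at goal1
    exact goal1

end Pool.Agent.H69.SPW
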